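import Pool.Agent.H21.SM.Hc

/-!
The algebra of the lifting argument: if the products of a rational function on a plane curve with
the two partial derivatives are polynomials of degree at most the degree of the curve, then its
product with a polynomial of the Jacobian ideal is a polynomial whose degree is at most two more.
-/

set_option autoImplicit false

open MvPolynomial

namespace Pool.Agent.H21.SM

open Pool.Agent.H54 (exists_pderiv_ne_zero totalDegree_pderiv_le)

/-- a prime does not divide both of its partial derivatives -/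
theorem exists_not_dvd_pderiv (π : MvPolynomial (Fin 2) ℝ) (hπ : Prime π) :
    ∃ j, ¬ π ∣ pderiv j π := by
  have hdeg : π.totalDegree ≠ 0 := by
    intro h0
    rw [totalDegree_eq_zero_iff_eq_C] at h0
    apply hπ.not_isUnit
    rw [h0]
    apply IsUnit.map
    rw [isUnit_iff_ne_zero]
    intro h1
    apply hπ.ne_zero
    rw [h0, h1, C_0]
  obtain ⟨j, hj⟩ := exists_pderiv_ne_zero π hdeg
  refine ⟨j, ?_⟩
  rintro ⟨A, hA⟩
  have hA0 : A ≠ 0 := by
    rintro rfl
    exact hj (by rw [hA, mul_zero])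
  have h1 := totalDegree_pderiv_le π j
  rw [hA, totalDegree_mul_of_isDomain hπ.ne_zero hA0] at h1
  omega

/-- the common part of the partial derivatives of `F` has one multiplicity less than `F` -/
theorem prime_dvd_cofactor (F G H π : MvPolynomial (Fin 2) ℝ) (hF : F = G * H) (hG0 : G ≠ 0)
    (hG : ∀ j, G ∣ pderiv j F) (hπ : Prime π) (hπG : π ∣ G) : π ∣ H := by
  by_contra hH
  obtain ⟨k, ρ, hρ, hk⟩ := WfDvdMonoid.max_power_factor hG0 hπ.irreducible
  have hk0 : k ≠ 0 := by
    rintro rfl
    rw [pow_zero, one_mul] at hk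
    exact hρ (hk ▸ hπG)
  obtain ⟨k', rfl⟩ : ∃ k', k = k' + 1 := ⟨k - 1, by omega⟩
  obtain ⟨j, hj⟩ := exists_not_dvd_pderiv π hπ
  have h1 : π ^ (k' + 1) ∣ pderiv j F := (Dvd.intro _ hk.symm).trans (hG j)
  have h2 : F = π ^ (k' + 1) * (ρ * H) := by rw [hF, hk]; ring
  rw [h2, pderiv_mul, pderiv_pow] at h1
  have h3 : π ^ (k' + 1) ∣ π ^ k' * (C ((k' + 1 : ℕ) : ℝ) * pderiv j π * (ρ * H)) := by
    have h4 : π ^ (k' + 1) ∣ π ^ (k' + 1) * pderiv j (ρ * H) := Dvd.intro _ rfl
    have h5 := (dvd_add_left h4).mp h1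
    have h6 : π ^ k' * (C ((k' + 1 : ℕ) : ℝ) * pderiv j π * (ρ * H)) =
        ((k' + 1 : ℕ) : MvPolynomial (Fin 2) ℝ) * π ^ (k' + 1 - 1) * pderiv j π * (ρ * H) := by
      rw [Nat.add_sub_cancel, map_natCast]
      ring
    rw [h6]
    exact h5
  rw [pow_succ] at h3
  have h7 : π ∣ C ((k' + 1 : ℕ) : ℝ) * pderiv j π * (ρ * H) :=
    (mul_dvd_mul_iff_left (pow_ne_zero _ hπ.ne_zero)).mp h3
  rcases hπ.dvd_or_dvd h7 with h | h
  · rcases hπ.dvd_or_dvd h with h | h
    · have hu : IsUnit (C ((k' + 1 : ℕ) : ℝ) : MvPolynomial (Fin 2) ℝ) := by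
        apply IsUnit.map
        rw [isUnit_iff_ne_zero]
        positivity
      exact hπ.not_isUnit (isUnit_of_dvd_unit h hu)
    · exact hj h
  · rcases hπ.dvd_or_dvd h with h | h
    · exact hρ h
    · exact hH h

/-- divisibility by a polynomial coprime to the pair of the cofactors -/
theorem dvd_of_dvd_pair (G N α β : MvPolynomial (Fin 2) ℝ) (hG0 : G ≠ 0) (hα : G ∣ N * α)
    (hβ : G ∣ N * β) (h : ∀ π, Prime π → π ∣ G → π ∣ α → ¬ π ∣ β) : G ∣ N := by
  classical
  let _ : GCDMonoid (MvPolynomial (Fin 2) ℝ) := UniqueFactorizationMonoid.toGCDMonoid _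
  have h1 : G ∣ gcd (N * α) (N * β) := dvd_gcd hα hβ
  have h2 : G ∣ N * gcd α β := h1.trans (gcd_mul_left' N α β).dvd
  have h3 : IsRelPrime G (gcd α β) := by
    apply WfDvdMonoid.isRelPrime_of_no_irreducible_factors
    · rintro ⟨h4, _⟩
      exact hG0 h4
    · intro π hπ h4 h5
      exact h π hπ.prime h4 (h5.trans (gcd_dvd_left _ _)) (h5.trans (gcd_dvd_right _ _))
  exact h3.dvd_of_dvd_mul_right h2

/-- first relation at infinity -/
theorem rel_top (P Q L M : MvPolynomial (Fin 2) ℝ) (j : Fin 2) (e m q : ℕ)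
    (he : P.totalDegree = e + 1) (hQ : Q.totalDegree ≤ q) (hq : q < m + 1 + e)
    (hL : L.totalDegree ≤ m + 1) (h : Q + L * pderiv j P = P * M) :
    M.totalDegree ≤ m ∧
    homogeneousComponent (m + 1) L * pderiv j (homogeneousComponent (e + 1) P) =
      homogeneousComponent (e + 1) P * homogeneousComponent m M := by
  have hP0 : P ≠ 0 := by
    rintro rfl
    rw [totalDegree_zero] at he
    omega
  have hPj : (pderiv j P).totalDegree ≤ e := by
    have := totalDegree_pderiv_le P j
    omega
  have hM : M.totalDegree ≤ m := by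
    by_cases hM0 : M = 0
    · rw [hM0, totalDegree_zero]
      omega
    · have h1 : (P * M).totalDegree = e + 1 + M.totalDegree := by
        rw [totalDegree_mul_of_isDomain hP0 hM0, he]
      have h2 : (Q + L * pderiv j P).totalDegree ≤ m + 1 + e := by
        refine (totalDegree_add _ _).trans (max_le (by omega) ?_)
        refine (totalDegree_mul _ _).trans ?_
        omega
      rw [h, h1] at h2
      omega
  refine ⟨hM, ?_⟩
  have h1 := congrArg (homogeneousComponent (m + 1 + e)) h
  rw [map_add, homogeneousComponent_eq_zero _ Q (by omega), zero_add,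
    hc_mul_top L _ (m + 1) e hL hPj, hc_pderiv] at h1
  rw [h1]
  have h2 : m + 1 + e = (e + 1) + m := by omega
  rw [h2, hc_mul_top P M (e + 1) m he.le hM]

/-- second relation at infinity -/
theorem rel_snd (P Q L M : MvPolynomial (Fin 2) ℝ) (j : Fin 2) (e m q : ℕ)
    (he : P.totalDegree = e + 2) (hQ : Q.totalDegree ≤ q) (hq : q < m + e + 2)
    (hL : L.totalDegree ≤ m + 2) (hM : M.totalDegree ≤ m + 1)
    (h : Q + L * pderiv j P = P * M) :
    homogeneousComponent (m + 2) L * pderiv j (homogeneousComponent (e + 1) P) +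
      homogeneousComponent (m + 1) L * pderiv j (homogeneousComponent (e + 2) P) =
      homogeneousComponent (e + 2) P * homogeneousComponent m M +
        homogeneousComponent (e + 1) P * homogeneousComponent (m + 1) M := by
  have hPj : (pderiv j P).totalDegree ≤ e + 1 := by
    have := totalDegree_pderiv_le P j
    omega
  have h1 := congrArg (homogeneousComponent (m + 1 + e + 1)) h
  rw [map_add, homogeneousComponent_eq_zero _ Q (by omega), zero_add,
    hc_mul_snd L _ (m + 1) e hL hPj, hc_pderiv, hc_pderiv] at h1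
  rw [h1]
  have h2 : m + 1 + e + 1 = (e + 1) + m + 1 := by omega
  rw [h2, hc_mul_snd P M (e + 1) m he.le hM]

/-- Let `a` be a polynomial of degree at most `k` in the Jacobian ideal of a plane curve without
singular point at infinity. If the products of a rational function on the curve with the two
partial derivatives are polynomials of degree at most the degree of the curve, then its product
with `a` is a polynomial of degree at most `k + 2`, and the part of degree `k + 2` vanishes at
the points at infinity of the curve. -/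
theorem exists_lift (P a Q0 Q1 : MvPolynomial (Fin 2) ℝ) (e k : ℕ)
    (he : P.totalDegree = e + 2)
    (haff : ∃ u v w, u * P + v * pderiv 0 P + w * pderiv 1 P = a) (hak : a.totalDegree ≤ k)
    (hinf : ∀ π, Prime π → π ∣ pderiv 0 (homogeneousComponent (e + 2) P) →
      π ∣ pderiv 1 (homogeneousComponent (e + 2) P) → ¬ π ∣ homogeneousComponent (e + 1) P)
    (hQ0 : Q0.totalDegree ≤ e + 2) (hQ1 : Q1.totalDegree ≤ e + 2)
    (hdvd : P ∣ Q0 * pderiv 1 P - Q1 * pderiv 0 P) :
    ∃ L : MvPolynomial (Fin 2) ℝ, L.totalDegree ≤ k + 2 ∧ P ∣ a * Q0 + L * pderiv 0 P ∧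
      P ∣ a * Q1 + L * pderiv 1 P ∧ ∀ π, Prime π → π ∣ homogeneousComponent (e + 2) P →
        π ∣ homogeneousComponent (k + 2) L := by
  classical
  obtain ⟨u, v, w, huvw⟩ := haff
  have hP0 : P ≠ 0 := by
    rintro rfl
    rw [totalDegree_zero] at he
    omega
  -- the leading form and its factorization
  obtain ⟨F, hF⟩ : ∃ F, F = homogeneousComponent (e + 2) P := ⟨_, rfl⟩
  have hFhom : F.IsHomogeneous (e + 2) := by
    rw [hF]; exact homogeneousComponent_isHomogeneous _ _
  have hF0 : F ≠ 0 := by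
    rw [hF, ← he]
    exact hc_ne_zero P hP0
  have hFdeg : F.totalDegree = e + 2 := hFhom.totalDegree hF0
  obtain ⟨G, A, hG0, hGA, hArel⟩ : ∃ (G : MvPolynomial (Fin 2) ℝ)
      (A : Fin 2 → MvPolynomial (Fin 2) ℝ), G ≠ 0 ∧ (∀ j, pderiv j F = G * A j) ∧
      ∀ π, Prime π → π ∣ A 0 → ¬ π ∣ A 1 := by
    let _ : GCDMonoid (MvPolynomial (Fin 2) ℝ) := UniqueFactorizationMonoid.toGCDMonoid _
    obtain ⟨j, hj⟩ := exists_pderiv_ne_zero F (by omega)
    obtain ⟨a, b, hab, ha, hb⟩ : ∃ a b, IsRelPrime a b ∧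
        gcd (pderiv 0 F) (pderiv 1 F) * a = pderiv 0 F ∧
        gcd (pderiv 0 F) (pderiv 1 F) * b = pderiv 1 F := by
      have hg0 : gcd (pderiv 0 F) (pderiv 1 F) ≠ 0 := by
        intro h
        rw [gcd_eq_zero_iff] at h
        fin_cases j
        · exact hj h.1
        · exact hj h.2
      obtain ⟨a, ha⟩ := gcd_dvd_left (pderiv 0 F) (pderiv 1 F)
      obtain ⟨b, hb⟩ := gcd_dvd_right (pderiv 0 F) (pderiv 1 F)
      refine ⟨a, b, ?_, ha.symm, hb.symm⟩
      intro d hda hdb
      obtain ⟨a', rfl⟩ := hda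
      obtain ⟨b', rfl⟩ := hdb
      have h1 : gcd (pderiv 0 F) (pderiv 1 F) * d ∣ gcd (pderiv 0 F) (pderiv 1 F) := by
        apply dvd_gcd
        · conv_rhs => rw [ha]
          exact ⟨a', by ring⟩
        · conv_rhs => rw [hb]
          exact ⟨b', by ring⟩
      have h2 : gcd (pderiv 0 F) (pderiv 1 F) * d ∣ gcd (pderiv 0 F) (pderiv 1 F) * 1 := by
        rwa [mul_one]
      exact isUnit_of_dvd_one ((mul_dvd_mul_iff_left hg0).mp h2)
    refine ⟨gcd (pderiv 0 F) (pderiv 1 F), ![a, b], ?_, ?_, ?_⟩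
    · intro h
      rw [gcd_eq_zero_iff] at h
      fin_cases j
      · exact hj h.1
      · exact hj h.2
    · intro j
      fin_cases j
      · exact ha.symm
      · exact hb.symm
    · intro π hπ h1 h2
      exact hπ.not_isUnit (hab h1 h2)
  obtain ⟨H, hFH⟩ : ∃ H, F = G * H := by
    have h1 := hFhom.sum_X_mul_pderiv
    rw [Fin.sum_univ_two, hGA 0, hGA 1] at h1
    refine ⟨C ((((e + 2 : ℕ) : ℝ))⁻¹) * (X 0 * A 0 + X 1 * A 1), ?_⟩
    have h2 : C ((((e + 2 : ℕ) : ℝ))⁻¹) * ((e + 2) • F) = F := by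
      rw [nsmul_eq_mul, ← map_natCast (C : ℝ →+* MvPolynomial (Fin 2) ℝ), ← mul_assoc,
        ← C_mul, inv_mul_cancel₀ (by positivity), C_1, one_mul]
    rw [← h2, ← h1]
    ring
  have hH0 : H ≠ 0 := by
    rintro rfl
    exact hF0 (by rw [hFH, mul_zero])
  have hGH : ∀ π, Prime π → π ∣ G → π ∣ H := fun π hπ h =>
    prime_dvd_cofactor F G H π hFH hG0 (fun j => ⟨A j, hGA j⟩) hπ h
  -- a solution of smallest degree
  have hex : ∃ m, ∃ L : MvPolynomial (Fin 2) ℝ, L.totalDegree = m ∧
      P ∣ a * Q0 + L * pderiv 0 P ∧ P ∣ a * Q1 + L * pderiv 1 P := by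
    refine ⟨_, -(v * Q0 + w * Q1), rfl, ?_, ?_⟩
    · obtain ⟨T, hT⟩ := hdvd
      refine ⟨u * Q0 + w * T, ?_⟩
      linear_combination (-Q0) * huvw + w * hT
    · obtain ⟨T, hT⟩ := hdvd
      refine ⟨u * Q1 - v * T, ?_⟩
      linear_combination (-Q1) * huvw - v * hT
  obtain ⟨m, hm⟩ : ∃ m, m = Nat.find hex := ⟨_, rfl⟩
  obtain ⟨L, hLdeg, hL0, hL1⟩ := Nat.find_spec hex
  rw [← hm] at hLdeg
  have hmin : ∀ L' : MvPolynomial (Fin 2) ℝ, P ∣ a * Q0 + L' * pderiv 0 P →
      P ∣ a * Q1 + L' * pderiv 1 P → m ≤ L'.totalDegree := by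
    intro L' h0 h1
    rw [hm]
    exact Nat.find_min' hex ⟨L', rfl, h0, h1⟩
  have hLj : ∀ j, ∃ M, a * (if j = 0 then Q0 else Q1) + L * pderiv j P = P * M := by
    intro j
    fin_cases j
    · obtain ⟨M, hM⟩ := hL0
      exact ⟨M, by simpa using hM⟩
    · obtain ⟨M, hM⟩ := hL1
      exact ⟨M, by simpa using hM⟩
  choose M hM using hLj
  have hQj : ∀ j : Fin 2, (a * (if j = 0 then Q0 else Q1)).totalDegree ≤ k + (e + 2) := by
    intro j
    refine (totalDegree_mul _ _).trans ?_
    split_ifs <;> omega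
  -- first relation
  have hstep1 : ∀ m', k < m' → L.totalDegree ≤ m' + 1 → (∀ j, (M j).totalDegree ≤ m') ∧
      ∃ N, homogeneousComponent (m' + 1) L = H * N ∧
        ∀ j, homogeneousComponent m' (M j) = N * A j := by
    intro m' hkm hLm
    have h1 := fun j => rel_top P _ L (M j) j (e + 1) m' _ he (hQj j) (by omega) hLm (hM j)
    refine ⟨fun j => (h1 j).1, ?_⟩
    have h2 : ∀ j, homogeneousComponent (m' + 1) L * A j =
        H * homogeneousComponent m' (M j) := by
      intro j
      have h3 := (h1 j).2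
      rw [show e + 1 + 1 = e + 2 from rfl, ← hF, hGA j, hFH] at h3
      apply mul_left_cancel₀ hG0
      linear_combination h3
    have h3 : H ∣ homogeneousComponent (m' + 1) L := by
      refine dvd_of_dvd_pair H _ (A 0) (A 1) hH0 ⟨_, h2 0⟩ ⟨_, h2 1⟩ ?_
      intro π hπ _ h4
      exact hArel π hπ h4
    obtain ⟨N, hN⟩ := h3
    refine ⟨N, hN, fun j => ?_⟩
    apply mul_left_cancel₀ hH0
    rw [← h2 j, hN]
    ring
  have hm2 : m ≤ k + 2 := by
    by_contra hcon
    push Not at hcon
    obtain ⟨m', rfl⟩ : ∃ m', m = m' + 2 := ⟨m - 2, by omega⟩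
    have hkm : k < m' := by omega
    obtain ⟨hMdeg, N, hN, hNA⟩ := hstep1 (m' + 1) (by omega) (by omega)
    have hsnd := fun j => rel_snd P _ L (M j) j e m' _ he (hQj j) (by omega)
      hLdeg.le (hMdeg j) (hM j)
    rw [show m' + 1 + 1 = m' + 2 from rfl] at hN
    have h1 : ∀ j, G ∣ N * (H * pderiv j (homogeneousComponent (e + 1) P) -
        homogeneousComponent (e + 1) P * A j) := by
      intro j
      refine ⟨H * homogeneousComponent m' (M j) - homogeneousComponent (m' + 1) L * A j, ?_⟩
      have h2 := hsnd j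
      rw [hNA j, hN, ← hF, hGA j, hFH] at h2
      linear_combination h2
    have h2 : G ∣ N := by
      refine dvd_of_dvd_pair G N _ _ hG0 (h1 0) (h1 1) ?_
      intro π hπ hπG hα hβ
      have hπH := hGH π hπ hπG
      have h3 : ∀ j, π ∣ H * pderiv j (homogeneousComponent (e + 1) P) -
          homogeneousComponent (e + 1) P * A j → π ∣ homogeneousComponent (e + 1) P ∨ π ∣ A j := by
        intro j hj
        have h4 : π ∣ H * pderiv j (homogeneousComponent (e + 1) P) := hπH.mul_right _
        have h5 := (dvd_sub_right h4).mp hj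
        exact hπ.dvd_or_dvd h5
      have hnot : ¬ π ∣ homogeneousComponent (e + 1) P := by
        apply hinf π hπ
        · rw [← hF, hGA 0]
          exact hπG.mul_right _
        · rw [← hF, hGA 1]
          exact hπG.mul_right _
      have h4 := (h3 0 hα).resolve_left hnot
      have h5 := (h3 1 hβ).resolve_left hnot
      exact hArel π hπ h4 h5
    obtain ⟨N', hN'⟩ := h2
    have hLm : homogeneousComponent (m' + 2) L = F * N' := by
      rw [hN, hN', hFH]
      ring
    have hL0' : L ≠ 0 := by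
      rintro rfl
      rw [totalDegree_zero] at hLdeg
      omega
    have hLm0 : homogeneousComponent (m' + 2) L ≠ 0 := by
      rw [← hLdeg]
      exact hc_ne_zero L hL0'
    have hN'0 : N' ≠ 0 := by
      rintro rfl
      exact hLm0 (by rw [hLm, mul_zero])
    have hdegN' : (m' + 2) = (e + 2) + N'.totalDegree := by
      have h3 := (homogeneousComponent_isHomogeneous (m' + 2) L).totalDegree hLm0
      rw [hLm, totalDegree_mul_of_isDomain hF0 hN'0, hFdeg] at h3
      exact h3.symm
    obtain ⟨N'', hN''⟩ : ∃ N'', N'' = homogeneousComponent N'.totalDegree N' := ⟨_, rfl⟩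
    have hLm2 : homogeneousComponent (m' + 2) L = F * N'' := by
      have h3 : homogeneousComponent (m' + 2) (homogeneousComponent (m' + 2) L) =
          homogeneousComponent (m' + 2) L :=
        homogeneousComponent_eq_self (homogeneousComponent_isHomogeneous _ _)
      rw [← h3, hLm]
      conv_lhs => rw [hdegN']
      rw [hc_mul_top F N' (e + 2) _ hFdeg.le le_rfl, homogeneousComponent_eq_self hFhom, hN'']
    have hN''deg : N''.totalDegree ≤ N'.totalDegree := by
      rw [hN'']
      exact totalDegree_hc_le _ _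
    have hlt : (L - P * N'').totalDegree < m' + 2 := by
      apply totalDegree_lt_of_hc _ _ (by omega)
      · refine (totalDegree_sub _ _).trans (max_le hLdeg.le ?_)
        refine (totalDegree_mul _ _).trans ?_
        omega
      · rw [map_sub, hLm2]
        conv_lhs =>
          rhs
          rw [hdegN']
        rw [hc_mul_top P N'' (e + 2) _ he.le hN''deg, ← hF]
        have h3 : homogeneousComponent N'.totalDegree N'' = N'' := by
          rw [hN'']
          exact homogeneousComponent_eq_self (homogeneousComponent_isHomogeneous _ _)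
        rw [h3, sub_self]
    have h3 := hmin (L - P * N'') (by
        obtain ⟨T, hT⟩ := hL0
        exact ⟨T - N'' * pderiv 0 P, by linear_combination hT⟩) (by
        obtain ⟨T, hT⟩ := hL1
        exact ⟨T - N'' * pderiv 1 P, by linear_combination hT⟩)
    omega
  refine ⟨L, hLdeg.le.trans hm2, hL0, hL1, ?_⟩
  intro π hπ hπF
  obtain ⟨_, N, hN, _⟩ := hstep1 (k + 1) (by omega) (by omega)
  rw [show k + 1 + 1 = k + 2 from rfl] at hN
  rw [hN]
  apply Dvd.dvd.mul_right
  rw [← hF, hFH] at hπF
  rcases hπ.dvd_or_dvd hπF with h | h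
  · exact hGH π hπ h
  · exact h

end Pool.Agent.H21.SM
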