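import Pool.Agent.H21.SM.Hc

/-!
Plane curves without singular point at infinity, and polynomials of small degree in the Jacobian
ideal.
-/

set_option autoImplicit false

open MvPolynomial

namespace Pool.Agent.H21.SM

/-- The homogenization `F(X, Y, Z) = Z ^ d * P(X / Z, Y / Z)`, `d` the degree of `P`. -/
noncomputable def homogenization (P : MvPolynomial (Fin 2) ℝ) : MvPolynomial (Fin 3) ℝ :=
  ∑ k ∈ Finset.range (P.totalDegree + 1),
    rename Fin.castSucc (homogeneousComponent k P) * X 2 ^ (P.totalDegree - k)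

/-- The projective closure of the plane curve `P = 0` has no singular point on the line at
infinity over the complex numbers: the partial derivatives of the homogenization have no common
zero `(x, y, 0)` besides `0`. -/
def SmoothAtInfinity (P : MvPolynomial (Fin 2) ℝ) : Prop :=
  ∀ v : Fin 3 → ℂ, v 2 = 0 → (∀ i, aeval v (pderiv i (homogenization P)) = 0) → v = 0

/-- The total Tjurina number of the affine curve `P = 0`: the dimension of the quotient of
`ℝ[X, Y]` by the ideal generated by `P` and its partial derivatives. -/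
noncomputable def tjurina (P : MvPolynomial (Fin 2) ℝ) : Cardinal :=
  Module.rank ℝ (MvPolynomial (Fin 2) ℝ ⧸ Ideal.span {P, pderiv 0 P, pderiv 1 P})

theorem aeval_rename_castSucc (A : MvPolynomial (Fin 2) ℝ) (z : Fin 2 → ℂ) (c : ℂ) :
    aeval ![z 0, z 1, c] (rename Fin.castSucc A) = aeval z A := by
  rw [aeval_rename]
  congr 2
  funext i
  fin_cases i <;> rfl

theorem pderiv_castSucc (A : MvPolynomial (Fin 2) ℝ) (n : ℕ) (j : Fin 2) :
    pderiv (Fin.castSucc j) (rename Fin.castSucc A * X 2 ^ n : MvPolynomial (Fin 3) ℝ) =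
      rename Fin.castSucc (pderiv j A) * X 2 ^ n := by
  have h2 : (2 : Fin 3) ≠ Fin.castSucc j := by
    fin_cases j <;> decide
  rw [pderiv_mul, pderiv_rename (Fin.castSucc_injective 2), pderiv_pow, pderiv_X_of_ne h2,
    mul_zero, mul_zero, add_zero]

theorem pderiv_two_rename (A : MvPolynomial (Fin 2) ℝ) :
    pderiv 2 (rename Fin.castSucc A : MvPolynomial (Fin 3) ℝ) = 0 := by
  classical
  apply pderiv_eq_zero_of_notMem_vars
  intro h
  have h1 := vars_rename (Fin.castSucc : Fin 2 → Fin 3) A h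
  rw [Finset.mem_image] at h1
  obtain ⟨j, _, hj⟩ := h1
  fin_cases j <;> simp [Fin.ext_iff] at hj

theorem aeval_pderiv_castSucc (P : MvPolynomial (Fin 2) ℝ) (z : Fin 2 → ℂ) (c : ℂ) (j : Fin 2) :
    aeval ![z 0, z 1, c] (pderiv (Fin.castSucc j) (homogenization P)) =
      ∑ k ∈ Finset.range (P.totalDegree + 1),
        aeval z (pderiv j (homogeneousComponent k P)) * c ^ (P.totalDegree - k) := by
  unfold homogenization
  rw [map_sum, map_sum]
  refine Finset.sum_congr rfl fun k _ => ?_
  rw [pderiv_castSucc, map_mul, aeval_rename_castSucc, map_pow, aeval_X]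
  rfl

theorem aeval_pderiv_zero (P : MvPolynomial (Fin 2) ℝ) (z : Fin 2 → ℂ) (j : Fin 2) :
    aeval ![z 0, z 1, 0] (pderiv (Fin.castSucc j) (homogenization P)) =
      aeval z (pderiv j (homogeneousComponent P.totalDegree P)) := by
  rw [aeval_pderiv_castSucc, Finset.sum_eq_single P.totalDegree]
  · rw [Nat.sub_self, pow_zero, mul_one]
  · intro k hk hne
    have hk' : k ≤ P.totalDegree := Nat.lt_succ_iff.mp (Finset.mem_range.mp hk)
    rw [zero_pow (by omega), mul_zero]
  · intro h
    exact absurd (Finset.mem_range.mpr (Nat.lt_succ_self _)) h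

theorem aeval_pderiv_two_zero (P : MvPolynomial (Fin 2) ℝ) (z : Fin 2 → ℂ) (e : ℕ)
    (he : P.totalDegree = e + 1) :
    aeval ![z 0, z 1, 0] (pderiv 2 (homogenization P)) =
      aeval z (homogeneousComponent e P) := by
  unfold homogenization
  rw [map_sum, map_sum, Finset.sum_eq_single e]
  · rw [pderiv_mul, pderiv_two_rename, zero_mul, zero_add, map_mul, aeval_rename_castSucc, he]
    have h : e + 1 - e = 1 := by omega
    rw [h, pow_one, pderiv_X_self, map_one, mul_one]
  · intro k hk hne
    have hk' : k ≤ P.totalDegree := Nat.lt_succ_iff.mp (Finset.mem_range.mp hk)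
    rw [pderiv_mul, pderiv_two_rename, zero_mul, zero_add, map_mul, pderiv_pow, pderiv_X_self,
      mul_one, map_mul, map_pow, aeval_X]
    have h : (![z 0, z 1, (0 : ℂ)] : Fin 3 → ℂ) 2 = 0 := rfl
    rw [h]
    by_cases hk2 : k = P.totalDegree
    · rw [hk2, Nat.sub_self, Nat.cast_zero, map_zero, zero_mul, mul_zero]
    · rw [zero_pow (by omega), mul_zero, mul_zero]
  · intro h
    exact absurd (Finset.mem_range.mpr (by omega)) h

/-- no singular point at infinity -/
theorem not_dvd_infinity (P : MvPolynomial (Fin 2) ℝ) (hP : SmoothAtInfinity P) (e : ℕ)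
    (he : P.totalDegree = e + 1) (π : MvPolynomial (Fin 2) ℝ) (hπ : Prime π)
    (h0 : π ∣ pderiv 0 (homogeneousComponent (e + 1) P))
    (h1 : π ∣ pderiv 1 (homogeneousComponent (e + 1) P)) :
    ¬ π ∣ homogeneousComponent e P := by
  classical
  intro h2
  obtain ⟨J, hJ⟩ : ∃ J, J = Ideal.span {pderiv 0 (homogeneousComponent (e + 1) P),
      pderiv 1 (homogeneousComponent (e + 1) P), homogeneousComponent e P} := ⟨_, rfl⟩
  have hz0 : ∀ z ∈ zeroLocus ℂ J, z = 0 := by
    intro z hz
    rw [mem_zeroLocus_iff, hJ] at hz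
    have h3 : ∀ j, aeval z (pderiv j (homogeneousComponent (e + 1) P)) = 0 := by
      intro j
      fin_cases j
      · exact hz _ (Ideal.subset_span (by simp))
      · exact hz _ (Ideal.subset_span (by simp))
    have h4 : aeval z (homogeneousComponent e P) = 0 := hz _ (Ideal.subset_span (by simp))
    have h5 : ∀ i, aeval ![z 0, z 1, (0 : ℂ)] (pderiv i (homogenization P)) = 0 := by
      have h6 : ∀ j : Fin 2, aeval ![z 0, z 1, (0 : ℂ)]
          (pderiv (Fin.castSucc j) (homogenization P)) = 0 := fun j => by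
        rw [aeval_pderiv_zero, he, h3 j]
      have h7 := h6 0
      have h8 := h6 1
      simp only [Fin.castSucc_zero, Fin.castSucc_one] at h7 h8
      intro i
      fin_cases i
      · exact h7
      · exact h8
      · exact (aeval_pderiv_two_zero P z e he).trans h4
    have h9 := hP _ rfl h5
    funext j
    fin_cases j
    · exact congrFun h9 0
    · exact congrFun h9 1
  have hX : ∀ i : Fin 2, π ∣ X i := by
    intro i
    have h3 : (X i : MvPolynomial (Fin 2) ℝ) ∈ J.radical := by
      rw [← vanishingIdeal_zeroLocus_eq_radical (K := ℂ)]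
      intro z hz
      rw [hz0 z hz, aeval_X]
      rfl
    obtain ⟨n, hn⟩ := h3
    have h4 : J ≤ Ideal.span {π} := by
      rw [hJ, Ideal.span_le]
      intro x hx
      rw [SetLike.mem_coe, Ideal.mem_span_singleton]
      simp only [Set.mem_insert_iff, Set.mem_singleton_iff] at hx
      rcases hx with rfl | rfl | rfl
      · exact h0
      · exact h1
      · exact h2
    exact hπ.dvd_of_dvd_pow (Ideal.mem_span_singleton.mp (h4 hn))
  have h3 : Associated π (X 0) := hπ.associated_of_dvd X_prime (hX 0)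
  have h4 : (X 0 : MvPolynomial (Fin 2) ℝ) ∣ X 1 := h3.symm.dvd.trans (hX 1)
  rw [X_dvd_X] at h4
  exact absurd h4 (by decide)

/-- a polynomial of small degree in the Jacobian ideal -/
theorem exists_small (P : MvPolynomial (Fin 2) ℝ) (k : ℕ)
    (h : 8 * tjurina P < (((2 * k + 4) * (2 * k + 2) : ℕ) : Cardinal)) :
    ∃ a : MvPolynomial (Fin 2) ℝ, a ≠ 0 ∧ a.totalDegree ≤ k ∧
      ∃ u v w, u * P + v * pderiv 0 P + w * pderiv 1 P = a := by
  classical
  obtain ⟨I, hI⟩ : ∃ I, I = Ideal.span {P, pderiv 0 P, pderiv 1 P} := ⟨_, rfl⟩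
  have hlt : tjurina P < Cardinal.aleph0 := by
    by_contra hcon
    push Not at hcon
    have h1 : Cardinal.aleph0 ≤ 8 * tjurina P := by
      refine hcon.trans ?_
      have h2 : (1 : Cardinal) * tjurina P ≤ 8 * tjurina P := by
        apply mul_le_mul_left
        exact_mod_cast (show 1 ≤ 8 by norm_num)
      rwa [one_mul] at h2
    exact absurd (h1.trans_lt h) (not_lt.mpr (Cardinal.natCast_lt_aleph0).le)
  obtain ⟨r, hr⟩ := Cardinal.lt_aleph0.mp hlt
  have hr8 : 8 * r < (2 * k + 4) * (2 * k + 2) := by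
    rw [hr] at h
    exact_mod_cast h
  have hrk : r < (k + 1) * (k + 2) / 2 := by
    have h1 : (2 * k + 4) * (2 * k + 2) = 4 * ((k + 1) * (k + 2)) := by ring
    rw [h1] at hr8
    have h2 : (k + 1) * (k + 2) / 2 * 2 = (k + 1) * (k + 2) := by
      apply Nat.div_mul_cancel
      have := Nat.even_mul_succ_self (k + 1)
      exact this.two_dvd
    omega
  have hfin : Module.Finite ℝ (MvPolynomial (Fin 2) ℝ ⧸ I) := by
    rw [hI]
    exact Module.rank_lt_aleph0_iff.mp hlt
  have hrank : Module.finrank ℝ (MvPolynomial (Fin 2) ℝ ⧸ I) = r := by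
    rw [hI]
    exact Module.finrank_eq_of_rank_eq hr
  have hV : Module.finrank ℝ (restrictTotalDegree (Fin 2) ℝ k) = (k + 1) * (k + 2) / 2 :=
    H54.finrank_restrictTotalDegree ℝ k
  have hVfin : Module.Finite ℝ (restrictTotalDegree (Fin 2) ℝ k) := by
    apply Module.finite_of_finrank_pos
    rw [hV]
    omega
  let φ : restrictTotalDegree (Fin 2) ℝ k →ₗ[ℝ] (MvPolynomial (Fin 2) ℝ ⧸ I) :=
    (Ideal.Quotient.mkₐ ℝ I).toLinearMap.comp (Submodule.subtype _)
  have hker : LinearMap.ker φ ≠ ⊥ := by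
    apply LinearMap.ker_ne_bot_of_finrank_lt
    rw [hrank, hV]
    exact hrk
  obtain ⟨a, ha, ha0⟩ := Submodule.exists_mem_ne_zero_of_ne_bot hker
  refine ⟨a.1, ?_, ?_, ?_⟩
  · intro h1
    exact ha0 (Subtype.ext h1)
  · exact (mem_restrictTotalDegree (Fin 2) k a.1).mp a.2
  · have h1 : a.1 ∈ I := by
      have h2 : φ a = 0 := ha
      exact Ideal.Quotient.eq_zero_iff_mem.mp h2
    rw [hI, Ideal.mem_span_insert] at h1
    obtain ⟨u, y, hy, huy⟩ := h1
    rw [Ideal.mem_span_pair] at hy
    obtain ⟨v, w, hvw⟩ := hy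
    exact ⟨u, v, w, by rw [huy, ← hvw]; ring⟩

end Pool.Agent.H21.SM
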