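import Pool.Agent.H21.SM.Hc

/-!
A real plane curve of odd degree is unbounded.
-/

set_option autoImplicit false

open MvPolynomial Filter

namespace Pool.Agent.H21.SM

theorem eval_smul_hc (A : MvPolynomial (Fin 2) ℝ) (k : ℕ) (t : ℝ) (u : Fin 2 → ℝ) :
    eval (fun i => t * u i) (homogeneousComponent k A) =
      t ^ k * eval u (homogeneousComponent k A) := by
  classical
  rw [eval_eq', eval_eq', Finset.mul_sum]
  refine Finset.sum_congr rfl fun d hd => ?_
  have hd' : d 0 + d 1 = k := by
    have h1 := (homogeneousComponent_isHomogeneous k A) (mem_support_iff.mp hd)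
    rw [Finsupp.weight_apply, Finsupp.sum_fintype _ _ (by simp)] at h1
    simpa using h1
  rw [Fin.prod_univ_two, Fin.prod_univ_two, ← hd', pow_add]
  ring

/-- the real zeros of a polynomial of odd degree are unbounded -/
theorem exists_far_zero (P : MvPolynomial (Fin 2) ℝ) (hP : Odd P.totalDegree) (b : ℝ) :
    ∃ z : Fin 2 → ℝ, eval z P = 0 ∧ b < z 0 ^ 2 + z 1 ^ 2 := by
  classical
  obtain ⟨e, he⟩ : ∃ e, e = P.totalDegree := ⟨_, rfl⟩
  rw [← he] at hP
  have he0 : e ≠ 0 := by
    rintro rfl
    exact absurd hP (by decide)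
  have hP0 : P ≠ 0 := by
    rintro rfl
    rw [totalDegree_zero] at he
    exact he0 he
  obtain ⟨u, hu⟩ : ∃ u : Fin 2 → ℝ, eval u (homogeneousComponent e P) ≠ 0 := by
    by_contra hcon
    push Not at hcon
    have h1 : homogeneousComponent e P = 0 := MvPolynomial.funext (by simpa using hcon)
    exact hc_ne_zero P hP0 (by rw [← he]; exact h1)
  obtain ⟨q, hq⟩ : ∃ q : Polynomial ℝ, q = ∑ k ∈ Finset.range (e + 1),
      Polynomial.C (eval u (homogeneousComponent k P)) * Polynomial.X ^ k := ⟨_, rfl⟩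
  have hexp : ∀ t : ℝ, eval (fun i => t * u i) P = q.eval t := by
    intro t
    conv_lhs => rw [← sum_homogeneousComponent P, map_sum, ← he]
    rw [hq, Polynomial.eval_finsetSum]
    refine Finset.sum_congr rfl fun k _ => ?_
    rw [eval_smul_hc, Polynomial.eval_mul, Polynomial.eval_C, Polynomial.eval_pow,
      Polynomial.eval_X, mul_comm]
  have hcoeff : q.coeff e = eval u (homogeneousComponent e P) := by
    rw [hq, Polynomial.finsetSum_coeff, Finset.sum_eq_single e]
    · rw [Polynomial.coeff_C_mul_X_pow, if_pos rfl]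
    · intro k _ hne
      rw [Polynomial.coeff_C_mul_X_pow, if_neg hne.symm]
    · intro h
      exact absurd (Finset.mem_range.mpr (Nat.lt_succ_self e)) h
  have hdeg : q.natDegree = e := by
    apply le_antisymm
    · rw [hq]
      apply Polynomial.natDegree_sum_le_of_forall_le
      intro k hk
      refine (Polynomial.natDegree_C_mul_X_pow_le _ _).trans ?_
      exact Nat.lt_succ_iff.mp (Finset.mem_range.mp hk)
    · apply Polynomial.le_natDegree_of_ne_zero
      rw [hcoeff]
      exact hu
  have hlead : q.leadingCoeff ≠ 0 := by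
    rw [Polynomial.leadingCoeff, hdeg, hcoeff]
    exact hu
  have hq0 : q ≠ 0 := Polynomial.leadingCoeff_ne_zero.mp hlead
  have hXdeg : (-Polynomial.X : Polynomial ℝ).natDegree = 1 := by
    rw [Polynomial.natDegree_neg, Polynomial.natDegree_X]
  have hclead : (q.comp (-Polynomial.X)).leadingCoeff = -q.leadingCoeff := by
    rw [Polynomial.leadingCoeff_comp (by rw [hXdeg]; exact one_ne_zero), hdeg,
      Polynomial.leadingCoeff_neg, Polynomial.leadingCoeff_X, hP.neg_one_pow]
    ring
  have hneg : ∀ᶠ t in atTop, (q * q.comp (-Polynomial.X)).eval t < 0 := by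
    have hlc : (q * q.comp (-Polynomial.X)).leadingCoeff < 0 := by
      rw [Polynomial.leadingCoeff_mul, hclead]
      have : 0 < q.leadingCoeff ^ 2 := by positivity
      nlinarith
    have hcomp0 : q.comp (-Polynomial.X) ≠ 0 := by
      rw [← Polynomial.leadingCoeff_ne_zero, hclead]
      exact neg_ne_zero.mpr hlead
    have hd : 0 < (q * q.comp (-Polynomial.X)).degree := by
      rw [← Polynomial.natDegree_pos_iff_degree_pos, Polynomial.natDegree_mul hq0 hcomp0, hdeg]
      omega
    exact (Polynomial.tendsto_atBot_of_leadingCoeff_nonpos _ hd hlc.le).eventually_lt_atBot 0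
  have hu0 : 0 < u 0 ^ 2 + u 1 ^ 2 := by
    by_contra hcon
    have h0 : u 0 = 0 := by nlinarith [sq_nonneg (u 0), sq_nonneg (u 1)]
    have h1 : u 1 = 0 := by nlinarith [sq_nonneg (u 0), sq_nonneg (u 1)]
    apply hu
    have h2 : u = fun i => 0 * u i := by
      funext i
      fin_cases i
      · simp [h0]
      · simp [h1]
    rw [h2, eval_smul_hc, zero_pow he0, zero_mul]
  have hbig : ∀ᶠ t : ℝ in atTop, b < t ^ 2 * (u 0 ^ 2 + u 1 ^ 2) :=
    ((tendsto_pow_atTop (two_ne_zero)).atTop_mul_const hu0).eventually_gt_atTop b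
  obtain ⟨t, ht1, htb⟩ := (hneg.and hbig).exists
  have hsign : eval (fun i => t * u i) P * eval (fun i => (-t) * u i) P < 0 := by
    rw [hexp, hexp]
    rw [Polynomial.eval_mul, Polynomial.eval_comp] at ht1
    simpa using ht1
  -- intermediate value theorem on the circle
  let f : ℝ → ℝ := fun θ => eval ![t * (Real.cos θ * u 0 - Real.sin θ * u 1),
    t * (Real.cos θ * u 1 + Real.sin θ * u 0)] P
  have hf : Continuous f := by
    apply (continuous_eval P).comp
    apply continuous_pi
    intro i
    fin_cases i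
    · exact continuous_const.mul ((Real.continuous_cos.mul continuous_const).sub
        (Real.continuous_sin.mul continuous_const))
    · exact continuous_const.mul ((Real.continuous_cos.mul continuous_const).add
        (Real.continuous_sin.mul continuous_const))
  have hf0 : f 0 = eval (fun i => t * u i) P := by
    simp only [f, Real.cos_zero, Real.sin_zero]
    congr 2
    funext i
    fin_cases i <;> simp
  have hfπ : f Real.pi = eval (fun i => (-t) * u i) P := by
    simp only [f, Real.cos_pi, Real.sin_pi]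
    congr 2
    funext i
    fin_cases i <;> simp
  rw [← hf0, ← hfπ] at hsign
  obtain ⟨θ, hθ⟩ : ∃ θ, f θ = 0 := by
    rcases mul_neg_iff.mp hsign with ⟨h1, h2⟩ | ⟨h1, h2⟩
    · obtain ⟨θ, _, hθ⟩ := intermediate_value_Icc' Real.pi_pos.le hf.continuousOn
        (show (0 : ℝ) ∈ Set.Icc (f Real.pi) (f 0) from ⟨h2.le, h1.le⟩)
      exact ⟨θ, hθ⟩
    · obtain ⟨θ, _, hθ⟩ := intermediate_value_Icc Real.pi_pos.le hf.continuousOn
        (show (0 : ℝ) ∈ Set.Icc (f 0) (f Real.pi) from ⟨h1.le, h2.le⟩)
      exact ⟨θ, hθ⟩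
  refine ⟨_, hθ, ?_⟩
  have h1 : (![t * (Real.cos θ * u 0 - Real.sin θ * u 1),
      t * (Real.cos θ * u 1 + Real.sin θ * u 0)] : Fin 2 → ℝ) 0 ^ 2 +
      (![t * (Real.cos θ * u 0 - Real.sin θ * u 1),
      t * (Real.cos θ * u 1 + Real.sin θ * u 0)] : Fin 2 → ℝ) 1 ^ 2 =
      t ^ 2 * (u 0 ^ 2 + u 1 ^ 2) := by
    simp only [Matrix.cons_val_zero, Matrix.cons_val_one]
    linear_combination (t ^ 2 * (u 0 ^ 2 + u 1 ^ 2)) * (Real.sin_sq_add_cos_sq θ)
  rw [h1]
  exact htb

end Pool.Agent.H21.SM
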