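import Pool.Agent.H21.SM.Alg
import Pool.Agent.H21.SM.Null
import Pool.Agent.H21.SM.Odd
import Pool.Agent.H54.ZeroSet

/-!
An irreducible plane curve of degree `d` with few singular points contains at most `2 d ^ 2`
generic images of points of a sphere.
-/

set_option autoImplicit false

open MvPolynomial

namespace Pool.Agent.H21.SM

open Pool.Agent.H54 (pt gram psi exists_velocity totalDegree_pderiv_le bezout finite_common
  exists_line card_le_of_prime)

theorem sq_dvd_pderiv (F π : MvPolynomial (Fin 2) ℝ) (h : π ^ 2 ∣ F) (j : Fin 2) :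
    π ∣ pderiv j F := by
  obtain ⟨ρ, rfl⟩ := h
  rw [pderiv_mul, pderiv_pow]
  refine ⟨2 * pderiv j π * ρ + π * pderiv j ρ, ?_⟩
  push_cast
  ring

/-- a nonzero polynomial does not vanish on all of a half plane -/
theorem exists_far_ne (a : MvPolynomial (Fin 2) ℝ) (ha : a ≠ 0) (b : ℝ) :
    ∃ z : Fin 2 → ℝ, eval z a ≠ 0 ∧ b < z 0 ^ 2 := by
  classical
  obtain ⟨z, hz⟩ : ∃ z : Fin 2 → ℝ, eval z a ≠ 0 := by
    by_contra hcon
    push Not at hcon
    exact ha (MvPolynomial.funext (by simpa using hcon))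
  obtain ⟨p, hp, _⟩ := exists_line a z 0
  have hp0 : p ≠ 0 := by
    rintro rfl
    apply hz
    have h1 := hp 0
    rw [Polynomial.eval_zero] at h1
    have h0 : (fun l => z l + if l = 0 then (0 : ℝ) else 0) = z := by
      funext l
      simp
    rw [h0] at h1
    exact h1.symm
  have hfin : {t : ℝ | p.eval t = 0}.Finite := by
    refine (p.roots.toFinset.finite_toSet).subset ?_
    intro t ht
    rw [Finset.mem_coe, Multiset.mem_toFinset, Polynomial.mem_roots hp0]
    exact ht
  obtain ⟨T, hT⟩ := hfin.bddAbove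
  obtain ⟨t, ht⟩ : ∃ t : ℝ, t = |T| + 1 + |z 0| + |b| + 1 := ⟨_, rfl⟩
  have ht1 : T < t := by
    have h1 := le_abs_self T
    have h2 := abs_nonneg (z 0)
    have h3 := abs_nonneg b
    linarith
  have ht2 : p.eval t ≠ 0 := fun h => absurd (hT h) (not_le.mpr ht1)
  refine ⟨fun l => z l + if l = 0 then t else 0, ?_, ?_⟩
  · rw [← hp]
    exact ht2
  · have h4 : |b| + 1 ≤ z 0 + t := by
      have h1 := neg_abs_le (z 0)
      have h2 := abs_nonneg T
      linarith
    have h5 : b < (z 0 + t) ^ 2 := by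
      have h3 := abs_nonneg b
      have h6 := le_abs_self b
      nlinarith
    simpa using h5

variable {n : Type*} [Fintype n] [DecidableEq n]

/-- Curves of even degree with few singular points. -/
theorem card_le_even (B : Finset (n → ℝ)) (M : Fin 2 × n → ℝ) (R : ℝ)
    (hR : ∀ x ∈ B, ∑ i, x i ^ 2 = R)
    (hinj : ∀ x ∈ B, ∀ y ∈ B, pt M x = pt M y → x = y)
    (hgen : ∀ e ≤ B.card, ∀ X ⊆ B, (gram e X M).det = 0 → psi e X = 0)
    (P : MvPolynomial (Fin 2) ℝ) (hP : Prime P) (k : ℕ) (he : P.totalDegree = 2 * k + 4)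
    (hns : SmoothAtInfinity P)
    (hτ : 8 * tjurina P < (((2 * k + 4) * (2 * k + 2) : ℕ) : Cardinal))
    (X : Finset (n → ℝ)) (hX : X ⊆ B) (hPX : ∀ x ∈ X, eval (pt M x) P = 0) :
    X.card ≤ 2 * P.totalDegree ^ 2 := by
  classical
  by_contra hcon
  push Not at hcon
  have hdeg : P.totalDegree ≤ B.card := by
    have h1 := Finset.card_le_card hX
    nlinarith [Nat.le_self_pow two_ne_zero P.totalDegree]
  rw [he] at hcon
  have hcard1 : P.totalDegree * P.totalDegree < X.card := by
    rw [he]
    nlinarith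
  choose Q hQ1 hQ2 using fun j i => exists_velocity B B.card M hinj hgen P hP hdeg X hX hPX
    hcard1 j i
  have hcardim : ∀ Y ⊆ X, (Y.image (pt M)).card = Y.card := fun Y hY =>
    Finset.card_image_of_injOn (fun x hx y hy h => hinj x (hX (hY hx)) y (hX (hY hy)) h)
  have key : ∀ (Y : Finset (n → ℝ)) (g : ℕ) (G : MvPolynomial (Fin 2) ℝ), Y ⊆ X →
      (2 * k + 4) * g < Y.card → G.totalDegree ≤ g → (∀ x ∈ Y, eval (pt M x) G = 0) →
      P ∣ G := by
    intro Y g G hY hYc hG hGX
    by_contra hnd
    have h3 := bezout P G hP hnd g hG (Y.image (pt M))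
      (by
        intro z hz
        obtain ⟨x, hx, rfl⟩ := Finset.mem_image.mp hz
        exact hPX x (hY hx))
      (by
        intro z hz
        obtain ⟨x, hx, rfl⟩ := Finset.mem_image.mp hz
        exact hGX x hx)
    rw [hcardim Y hY, he] at h3
    omega
  have hPj : ∀ j, (pderiv j P).totalDegree ≤ 2 * k + 3 := by
    intro j
    have := totalDegree_pderiv_le P j
    omega
  -- the points at which the curve is nonsingular
  obtain ⟨Y, hYdef⟩ : ∃ Y, Y = X.filter fun x => ¬ ∀ j, eval (pt M x) (pderiv j P) = 0 :=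
    ⟨_, rfl⟩
  have hYX : Y ⊆ X := by
    rw [hYdef]
    exact Finset.filter_subset _ _
  have hYcard : (2 * k + 4) * (2 * k + 4) < Y.card := by
    obtain ⟨j, hj⟩ := exists_not_dvd_pderiv P hP
    have h1 : (X.filter fun x => ∀ j, eval (pt M x) (pderiv j P) = 0).card ≤
        (2 * k + 4) * (2 * k + 3) := by
      have h2 := bezout P (pderiv j P) hP hj (2 * k + 3) (hPj j)
        ((X.filter fun x => ∀ j, eval (pt M x) (pderiv j P) = 0).image (pt M))
        (by
          intro z hz
          obtain ⟨x, hx, rfl⟩ := Finset.mem_image.mp hz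
          exact hPX x (Finset.mem_filter.mp hx).1)
        (by
          intro z hz
          obtain ⟨x, hx, rfl⟩ := Finset.mem_image.mp hz
          exact (Finset.mem_filter.mp hx).2 j)
      rwa [hcardim _ (Finset.filter_subset _ _), he] at h2
    have h3 := Finset.card_filter_add_card_filter_not (s := X)
      (fun x => ∀ j, eval (pt M x) (pderiv j P) = 0)
    rw [← hYdef] at h3
    nlinarith
  have hYj : ∀ x ∈ Y, ∃ j, eval (pt M x) (pderiv j P) ≠ 0 := by
    intro x hx
    rw [hYdef, Finset.mem_filter] at hx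
    have h1 := hx.2
    push Not at h1
    exact h1
  obtain ⟨a, ha0, hak, haff⟩ := exists_small P k hτ
  have hinf := not_dvd_infinity P hns (2 * k + 3) he
  -- the coordinates times `a` are polynomials of degree at most `k + 2`
  have hL : ∀ i, ∃ L : MvPolynomial (Fin 2) ℝ, L.totalDegree ≤ k + 2 ∧
      (∀ x ∈ Y, eval (pt M x) L = eval (pt M x) a * x i) ∧
      ∀ π, Prime π → π ∣ homogeneousComponent (2 * k + 4) P →
        π ∣ homogeneousComponent (k + 2) L := by
    intro i
    have hdvd : P ∣ Q 0 i * pderiv 1 P - Q 1 i * pderiv 0 P := by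
      apply key X (2 * (2 * k + 4)) _ (Finset.Subset.refl X)
      · nlinarith
      · have h0 := hQ1 0 i
        have h1 := hQ1 1 i
        have h2 := hPj 0
        have h3 := hPj 1
        rw [he] at h0 h1
        refine (totalDegree_sub _ _).trans (max_le ?_ ?_)
        · exact (totalDegree_mul _ _).trans (by omega)
        · exact (totalDegree_mul _ _).trans (by omega)
      · intro x hx
        rw [map_sub, map_mul, map_mul]
        linear_combination (eval (pt M x) (pderiv 1 P)) * hQ2 0 i x hx -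
          (eval (pt M x) (pderiv 0 P)) * hQ2 1 i x hx
    obtain ⟨L, hL1, hL2, hL3, hL4⟩ := exists_lift P a (Q 0 i) (Q 1 i) (2 * k + 2) k he haff hak
      hinf ((hQ1 0 i).trans he.le) ((hQ1 1 i).trans he.le) hdvd
    refine ⟨L, hL1, ?_, hL4⟩
    intro x hx
    have hxX := hYX hx
    have hPx := hPX x hxX
    have f : ∀ j, (eval (pt M x) L - eval (pt M x) a * x i) * eval (pt M x) (pderiv j P) = 0 := by
      intro j
      fin_cases j
      · obtain ⟨T0, hT0⟩ := hL2
        have e0 := congrArg (eval (pt M x)) hT0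
        rw [map_add, map_mul, map_mul, map_mul, hPx, zero_mul] at e0
        have e1 := hQ2 0 i x hxX
        simp only [Fin.zero_eta]
        linear_combination e0 - (eval (pt M x) a) * e1
      · obtain ⟨T0, hT0⟩ := hL3
        have e0 := congrArg (eval (pt M x)) hT0
        rw [map_add, map_mul, map_mul, map_mul, hPx, zero_mul] at e0
        have e1 := hQ2 1 i x hxX
        simp only [Fin.mk_one]
        linear_combination e0 - (eval (pt M x) a) * e1
    obtain ⟨j, hj⟩ := hYj x hx
    exact sub_eq_zero.mp ((mul_eq_zero.mp (f j)).resolve_right hj)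
  choose L hL1 hL2 hL3 using hL
  have hlin : ∀ l, ∑ i, C (M (l, i)) * L i - MvPolynomial.X l * a = 0 := by
    intro l
    have hdG : (∑ i, C (M (l, i)) * L i - MvPolynomial.X l * a).totalDegree ≤ k + 2 := by
      refine (totalDegree_sub _ _).trans (max_le ?_ ?_)
      · refine totalDegree_finsetSum_le ?_
        intro i _
        refine (totalDegree_mul _ _).trans ?_
        rw [totalDegree_C, zero_add]
        exact hL1 i
      · refine (totalDegree_mul _ _).trans ?_
        rw [totalDegree_X]
        omega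
    have hdvd : P ∣ ∑ i, C (M (l, i)) * L i - MvPolynomial.X l * a := by
      apply key Y (k + 2) _ hYX _ hdG
      · intro x hx
        rw [map_sub, map_sum, map_mul, eval_X, sub_eq_zero]
        have h2 : pt M x l = ∑ i, M (l, i) * x i := by simp [pt]
        rw [h2, Finset.sum_mul]
        refine Finset.sum_congr rfl fun i _ => ?_
        rw [map_mul, eval_C, hL2 i x hx]
        ring
      · nlinarith
    obtain ⟨T, hT⟩ := hdvd
    by_cases hT0 : T = 0
    · rw [hT, hT0, mul_zero]
    · exfalso
      rw [hT, totalDegree_mul_of_isDomain hP.ne_zero hT0, he] at hdG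
      omega
  obtain ⟨S, hS⟩ : ∃ S, S = ∑ i, L i ^ 2 - C R * a ^ 2 := ⟨_, rfl⟩
  have ha2 : (C R * a ^ 2).totalDegree ≤ 2 * k := by
    refine (totalDegree_mul _ _).trans ?_
    rw [totalDegree_C, zero_add]
    refine (totalDegree_pow _ _).trans ?_
    omega
  have hSdeg : S.totalDegree ≤ 2 * k + 4 := by
    rw [hS]
    refine (totalDegree_sub _ _).trans (max_le ?_ (by omega))
    refine totalDegree_finsetSum_le ?_
    intro i _
    refine (totalDegree_pow _ _).trans ?_
    have := hL1 i
    omega
  have hSdvd : P ∣ S := by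
    apply key Y (2 * k + 4) _ hYX hYcard hSdeg
    intro x hx
    rw [hS, map_sub, map_sum, map_mul, map_pow, eval_C, sub_eq_zero, ← hR x (hX (hYX hx)),
      Finset.sum_mul]
    refine Finset.sum_congr rfl fun i _ => ?_
    rw [map_pow, hL2 i x hx]
    ring
  have hR0 : 0 ≤ R := by
    obtain ⟨x, hx⟩ : X.Nonempty := by
      rw [← Finset.card_pos]
      omega
    rw [← hR x (hX hx)]
    positivity
  obtain ⟨T, hT⟩ := hSdvd
  have hS0 : S ≠ 0 := by
    intro hS0
    obtain ⟨z, hza, hzb⟩ := exists_far_ne a ha0 ((∑ i, M (0, i) ^ 2) * R)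
    have h1 : ∑ i, eval z (L i) ^ 2 = R * eval z a ^ 2 := by
      have h3 := congrArg (eval z) hS0
      rw [hS, map_sub, map_sum, map_mul, map_pow, eval_C, map_zero, sub_eq_zero] at h3
      rw [← h3]
      exact Finset.sum_congr rfl fun i _ => (map_pow _ _ _).symm
    have h2 : z 0 * eval z a = ∑ i, M (0, i) * eval z (L i) := by
      have h3 := congrArg (eval z) (hlin 0)
      rw [map_sub, map_sum, map_mul, eval_X, map_zero, sub_eq_zero] at h3
      rw [← h3]
      exact Finset.sum_congr rfl fun i _ => by rw [map_mul, eval_C]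
    have h3 : (z 0 * eval z a) ^ 2 ≤ (∑ i, M (0, i) ^ 2) * (R * eval z a ^ 2) := by
      rw [h2, ← h1]
      exact Finset.sum_mul_sq_le_sq_mul_sq _ _ _
    have h4 : 0 < eval z a ^ 2 := by positivity
    have h5 : z 0 ^ 2 * eval z a ^ 2 ≤ ((∑ i, M (0, i) ^ 2) * R) * eval z a ^ 2 := by
      nlinarith
    exact absurd (le_of_mul_le_mul_right h5 h4) (not_le.mpr hzb)
  have hT0 : T ≠ 0 := by
    rintro rfl
    exact hS0 (by rw [hT, mul_zero])
  have h3 : T.totalDegree = 0 := by
    rw [hT, totalDegree_mul_of_isDomain hP.ne_zero hT0, he] at hSdeg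
    omega
  obtain ⟨c, hc⟩ : ∃ c : ℝ, T = C c := ⟨_, totalDegree_eq_zero_iff_eq_C.mp h3⟩
  have hc0 : c ≠ 0 := by
    rintro rfl
    exact hT0 (by rw [hc, C_0])
  have hcu : IsUnit (C c : MvPolynomial (Fin 2) ℝ) :=
    (isUnit_iff_ne_zero.mpr hc0).map C
  -- the two components of highest degree
  have hL4 : homogeneousComponent (2 * k + 4) S = ∑ i, homogeneousComponent (k + 2) (L i) ^ 2 := by
    rw [hS, map_sub, map_sum, homogeneousComponent_eq_zero (2 * k + 4) (C R * a ^ 2) (by omega),
      sub_zero]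
    refine Finset.sum_congr rfl fun i _ => ?_
    rw [sq, sq, show 2 * k + 4 = (k + 2) + (k + 2) by ring]
    exact hc_mul_top (L i) (L i) (k + 2) (k + 2) (hL1 i) (hL1 i)
  have hL5 : homogeneousComponent (2 * k + 3) S =
      ∑ i, 2 * (homogeneousComponent (k + 2) (L i) * homogeneousComponent (k + 1) (L i)) := by
    rw [hS, map_sub, map_sum, homogeneousComponent_eq_zero (2 * k + 3) (C R * a ^ 2) (by omega),
      sub_zero]
    refine Finset.sum_congr rfl fun i _ => ?_
    rw [sq, show 2 * k + 3 = (k + 1) + (k + 1) + 1 by ring,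
      hc_mul_snd (L i) (L i) (k + 1) (k + 1) (hL1 i) (hL1 i)]
    ring
  have hS4 : homogeneousComponent (2 * k + 4) S = homogeneousComponent (2 * k + 4) P * C c := by
    rw [hT, hc, mul_comm P, homogeneousComponent_C_mul, mul_comm]
  have hS3 : homogeneousComponent (2 * k + 3) S = homogeneousComponent (2 * k + 3) P * C c := by
    rw [hT, hc, mul_comm P, homogeneousComponent_C_mul, mul_comm]
  have hP40 : homogeneousComponent (2 * k + 4) P ≠ 0 := by
    have h4 := hc_ne_zero P hP.ne_zero
    rwa [he] at h4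
  obtain ⟨π, hπ, hπP⟩ : ∃ π, Irreducible π ∧ π ∣ homogeneousComponent (2 * k + 4) P := by
    apply WfDvdMonoid.exists_irreducible_factor _ hP40
    intro hu
    have h4 := (homogeneousComponent_isHomogeneous (2 * k + 4) P).totalDegree hP40
    obtain ⟨G, hG⟩ := hu.exists_right_inv
    have hG0 : G ≠ 0 := by
      rintro rfl
      rw [mul_zero] at hG
      exact zero_ne_one hG
    have h5 := congrArg totalDegree hG
    rw [totalDegree_mul_of_isDomain hP40 hG0, totalDegree_one] at h5
    omega
  have hπL : ∀ i, π ∣ homogeneousComponent (k + 2) (L i) := fun i => hL3 i π hπ.prime hπP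
  have h5 : π ^ 2 ∣ homogeneousComponent (2 * k + 4) P := by
    have h6 : π ^ 2 ∣ homogeneousComponent (2 * k + 4) P * C c := by
      rw [← hS4, hL4]
      exact Finset.dvd_sum fun i _ => pow_dvd_pow_of_dvd (hπL i) 2
    exact (hcu.dvd_mul_right).mp h6
  have h6 : π ∣ homogeneousComponent (2 * k + 3) P := by
    have h7 : π ∣ homogeneousComponent (2 * k + 3) P * C c := by
      rw [← hS3, hL5]
      exact Finset.dvd_sum fun i _ => ((hπL i).mul_right _).mul_left _
    exact (hcu.dvd_mul_right).mp h7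
  exact hinf π hπ.prime (sq_dvd_pderiv _ π h5 0) (sq_dvd_pderiv _ π h5 1) h6

/-- Curves with few singular points. -/
theorem card_le_few (B : Finset (n → ℝ)) (M : Fin 2 × n → ℝ) (R : ℝ)
    (hR : ∀ x ∈ B, ∑ i, x i ^ 2 = R)
    (hinj : ∀ x ∈ B, ∀ y ∈ B, pt M x = pt M y → x = y)
    (hgen : ∀ e ≤ B.card, ∀ X ⊆ B, (gram e X M).det = 0 → psi e X = 0)
    (P : MvPolynomial (Fin 2) ℝ) (hP : Prime P) (hP3 : 3 ≤ P.totalDegree)
    (hns : SmoothAtInfinity P)
    (hτ : 8 * tjurina P < ((P.totalDegree * (P.totalDegree - 2) : ℕ) : Cardinal))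
    (X : Finset (n → ℝ)) (hX : X ⊆ B) (hPX : ∀ x ∈ X, eval (pt M x) P = 0) :
    X.card ≤ 2 * P.totalDegree ^ 2 := by
  classical
  rcases Nat.even_or_odd P.totalDegree with h | h
  · obtain ⟨m, hm⟩ := h
    obtain ⟨k, hk⟩ : ∃ k, m = k + 2 := ⟨m - 2, by omega⟩
    have he : P.totalDegree = 2 * k + 4 := by omega
    apply card_le_even B M R hR hinj hgen P hP k he hns _ X hX hPX
    rw [he] at hτ
    exact hτ
  · apply card_le_of_prime B M R hR hinj hgen P hP _ X hX hPX
    right
    rintro ⟨b, hb⟩
    obtain ⟨z, hz, hzb⟩ := exists_far_zero P h (b + b)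
    have h0 := hb z hz 0
    have h1 := hb z hz 1
    linarith

/-- Bound for arbitrary nonzero polynomials: only points all of whose irreducible components
are finite or unbounded or have few singular points are counted. -/
theorem card_le_few_general (B : Finset (n → ℝ)) (M : Fin 2 × n → ℝ) (R : ℝ)
    (hR : ∀ x ∈ B, ∑ i, x i ^ 2 = R)
    (hinj : ∀ x ∈ B, ∀ y ∈ B, pt M x = pt M y → x = y)
    (hgen : ∀ e ≤ B.card, ∀ X ⊆ B, (gram e X M).det = 0 → psi e X = 0)
    (P : MvPolynomial (Fin 2) ℝ) (hP0 : P ≠ 0)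
    (X : Finset (n → ℝ)) (hX : X ⊆ B) (hPX : ∀ x ∈ X, eval (pt M x) P = 0 ∧
      ∀ Q, Irreducible Q → Q ∣ P → eval (pt M x) Q = 0 →
        ({z : Fin 2 → ℝ | eval z Q = 0}.Finite ∨
          ¬ ∃ b : ℝ, ∀ z : Fin 2 → ℝ, eval z Q = 0 → ∀ l, z l ^ 2 ≤ b) ∨
        (3 ≤ Q.totalDegree ∧ SmoothAtInfinity Q ∧
          8 * tjurina Q < ((Q.totalDegree * (Q.totalDegree - 2) : ℕ) : Cardinal))) :
    X.card ≤ 2 * P.totalDegree ^ 2 := by
  classical
  revert X
  induction P using WfDvdMonoid.induction_on_irreducible with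
  | zero => exact absurd rfl hP0
  | unit u hu =>
    intro X hX hPX
    have : X = ∅ := by
      by_contra hne
      obtain ⟨x, hx⟩ := Finset.nonempty_iff_ne_empty.mpr hne
      have h1 := (hPX x hx).1
      have h2 : IsUnit (eval (pt M x) u) := hu.map (eval (pt M x))
      rw [h1] at h2
      exact not_isUnit_zero h2
    simp [this]
  | mul a p ha hp ih =>
    intro X hX hPX
    have hpr : Prime p := hp.prime
    have hsplit : X = (X.filter fun x => eval (pt M x) p = 0) ∪
        (X.filter fun x => eval (pt M x) a = 0) := by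
      ext x
      simp only [Finset.mem_union, Finset.mem_filter]
      constructor
      · intro hx
        have h1 := (hPX x hx).1
        rw [map_mul] at h1
        rcases mul_eq_zero.mp h1 with h | h
        · exact Or.inl ⟨hx, h⟩
        · exact Or.inr ⟨hx, h⟩
      · rintro (h | h) <;> exact h.1
    have hdeg : (p * a).totalDegree = p.totalDegree + a.totalDegree :=
      totalDegree_mul_of_isDomain hpr.ne_zero ha
    have h1 : (X.filter fun x => eval (pt M x) p = 0).card ≤ 2 * p.totalDegree ^ 2 := by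
      by_cases hemp : (X.filter fun x => eval (pt M x) p = 0) = ∅
      · simp [hemp]
      · obtain ⟨x, hx⟩ := Finset.nonempty_iff_ne_empty.mpr hemp
        obtain ⟨hxX, hxp⟩ := Finset.mem_filter.mp hx
        rcases (hPX x hxX).2 p hp (Dvd.intro _ rfl) hxp with hgood | ⟨hp3, hpns, hpt⟩
        · exact card_le_of_prime B M R hR hinj hgen p hpr hgood _
            ((Finset.filter_subset _ _).trans hX) (fun y hy => (Finset.mem_filter.mp hy).2)
        · exact card_le_few B M R hR hinj hgen p hpr hp3 hpns hpt _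
            ((Finset.filter_subset _ _).trans hX) (fun y hy => (Finset.mem_filter.mp hy).2)
    have h2 : (X.filter fun x => eval (pt M x) a = 0).card ≤ 2 * a.totalDegree ^ 2 := by
      apply ih ha _ ((Finset.filter_subset _ _).trans hX)
      intro x hx
      obtain ⟨hxX, hxa⟩ := Finset.mem_filter.mp hx
      exact ⟨hxa, fun Q hQ hQa hQx => (hPX x hxX).2 Q hQ (hQa.mul_left p) hQx⟩
    rw [hdeg]
    calc X.card ≤ (X.filter fun x => eval (pt M x) p = 0).card +
          (X.filter fun x => eval (pt M x) a = 0).card := by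
          conv_lhs => rw [hsplit]
          exact Finset.card_union_le _ _
      _ ≤ 2 * p.totalDegree ^ 2 + 2 * a.totalDegree ^ 2 := by omega
      _ ≤ 2 * (p.totalDegree + a.totalDegree) ^ 2 := by nlinarith

end Pool.Agent.H21.SM
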