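import Pool.Agent.H54.Lift

/-!
Homogeneous components of products and derivatives of polynomials in two variables.
-/

set_option autoImplicit false

open MvPolynomial

namespace Pool.Agent.H21.SM

section

variable {σ R : Type*} [CommSemiring R]

theorem hc_mul (A B : MvPolynomial σ R) (n : ℕ) :
    homogeneousComponent n (A * B) =
      ∑ p ∈ Finset.HasAntidiagonal.antidiagonal n, homogeneousComponent p.1 A * homogeneousComponent p.2 B := by
  classical
  ext m
  rw [coeff_homogeneousComponent, coeff_sum, coeff_mul]
  simp only [coeff_mul, coeff_homogeneousComponent]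
  rw [Finset.sum_comm]
  have key : ∀ x ∈ Finset.HasAntidiagonal.antidiagonal m,
      (∑ p ∈ Finset.HasAntidiagonal.antidiagonal n,
        (if x.1.degree = p.1 then coeff x.1 A else 0) *
          (if x.2.degree = p.2 then coeff x.2 B else 0)) =
      if m.degree = n then coeff x.1 A * coeff x.2 B else 0 := by
    intro x hx
    have hx' : x.1 + x.2 = m := Finset.HasAntidiagonal.mem_antidiagonal.mp hx
    have hd : x.1.degree + x.2.degree = m.degree := by
      rw [← hx', map_add]
    by_cases h : m.degree = n
    · rw [if_pos h, Finset.sum_eq_single (x.1.degree, x.2.degree)]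
      · simp
      · intro p _ hp
        by_cases h1 : x.1.degree = p.1
        · by_cases h2 : x.2.degree = p.2
          · exact absurd (Prod.ext h1.symm h2.symm) hp
          · simp [h2]
        · simp [h1]
      · intro hcon
        exact absurd (Finset.HasAntidiagonal.mem_antidiagonal.mpr (by rw [hd, h])) hcon
    · rw [if_neg h]
      apply Finset.sum_eq_zero
      intro p hp
      have hp' : p.1 + p.2 = n := Finset.HasAntidiagonal.mem_antidiagonal.mp hp
      by_cases h1 : x.1.degree = p.1
      · by_cases h2 : x.2.degree = p.2
        · exact absurd (by rw [← hd, h1, h2, hp']) h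
        · simp [h2]
      · simp [h1]
  rw [Finset.sum_congr rfl key]
  split_ifs with h
  · rfl
  · simp

/-- the top component of a product -/
theorem hc_mul_top (A B : MvPolynomial σ R) (a b : ℕ) (hA : A.totalDegree ≤ a)
    (hB : B.totalDegree ≤ b) :
    homogeneousComponent (a + b) (A * B) =
      homogeneousComponent a A * homogeneousComponent b B := by
  rw [hc_mul, Finset.sum_eq_single (a, b)]
  · intro p hp hne
    have hp' : p.1 + p.2 = a + b := Finset.HasAntidiagonal.mem_antidiagonal.mp hp
    by_cases h1 : a < p.1
    · rw [homogeneousComponent_eq_zero _ _ (lt_of_le_of_lt hA h1), zero_mul]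
    · by_cases h2 : b < p.2
      · rw [homogeneousComponent_eq_zero _ _ (lt_of_le_of_lt hB h2), mul_zero]
      · exact absurd (Prod.ext (by simp only; omega) (by simp only; omega)) hne
  · intro h
    exact absurd (by rw [Finset.HasAntidiagonal.mem_antidiagonal]) h

/-- the second component of a product -/
theorem hc_mul_snd (A B : MvPolynomial σ R) (a b : ℕ) (hA : A.totalDegree ≤ a + 1)
    (hB : B.totalDegree ≤ b + 1) :
    homogeneousComponent (a + b + 1) (A * B) =
      homogeneousComponent (a + 1) A * homogeneousComponent b B +
        homogeneousComponent a A * homogeneousComponent (b + 1) B := by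
  classical
  rw [hc_mul]
  have hne : ((a + 1, b) : ℕ × ℕ) ≠ (a, b + 1) := by
    intro h
    have := congrArg Prod.fst h
    simp at this
  have hsub : ({(a + 1, b), (a, b + 1)} : Finset (ℕ × ℕ)) ⊆ Finset.HasAntidiagonal.antidiagonal (a + b + 1) := by
    intro p hp
    rw [Finset.mem_insert, Finset.mem_singleton] at hp
    rw [Finset.HasAntidiagonal.mem_antidiagonal]
    rcases hp with rfl | rfl
    · simp only; omega
    · simp only; omega
  rw [← Finset.sum_subset hsub, Finset.sum_pair hne]
  intro p hp hne2
  have hp' : p.1 + p.2 = a + b + 1 := Finset.HasAntidiagonal.mem_antidiagonal.mp hp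
  rw [Finset.mem_insert, Finset.mem_singleton, not_or] at hne2
  by_cases h1 : a + 1 < p.1
  · rw [homogeneousComponent_eq_zero _ _ (lt_of_le_of_lt hA h1), zero_mul]
  · by_cases h2 : b + 1 < p.2
    · rw [homogeneousComponent_eq_zero _ _ (lt_of_le_of_lt hB h2), mul_zero]
    · exfalso
      by_cases h3 : p.1 = a + 1
      · exact hne2.1 (Prod.ext h3 (by simp only; omega))
      · exact hne2.2 (Prod.ext (by simp only; omega) (by simp only; omega))

theorem hc_pderiv (A : MvPolynomial σ R) (j : σ) (n : ℕ) :
    homogeneousComponent n (pderiv j A) = pderiv j (homogeneousComponent (n + 1) A) := by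
  classical
  ext m
  rw [coeff_homogeneousComponent, coeff_pderiv, coeff_pderiv, coeff_homogeneousComponent]
  have h : (m + Finsupp.single j 1).degree = m.degree + 1 := by
    rw [map_add, Finsupp.degree_single]
  rw [h]
  by_cases h1 : m.degree = n
  · rw [if_pos h1, if_pos (by rw [h1])]
  · rw [if_neg h1, if_neg (by omega), zero_mul]

theorem totalDegree_lt_of_hc (A : MvPolynomial σ R) (m : ℕ) (hm : 0 < m)
    (hA : A.totalDegree ≤ m) (h : homogeneousComponent m A = 0) : A.totalDegree < m := by
  classical
  rw [totalDegree, Finset.sup_lt_iff (by exact hm)]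
  intro s hs
  have h1 : s.degree ≤ m := (le_totalDegree hs).trans hA
  change s.degree < m
  refine lt_of_le_of_ne h1 ?_
  intro h2
  have h3 := congrArg (coeff s) h
  rw [coeff_homogeneousComponent, if_pos h2, coeff_zero] at h3
  exact (mem_support_iff.mp hs) h3

theorem totalDegree_hc_le (A : MvPolynomial σ R) (m : ℕ) :
    (homogeneousComponent m A).totalDegree ≤ m :=
  (homogeneousComponent_isHomogeneous m A).totalDegree_le

theorem hc_ne_zero (A : MvPolynomial σ R) (hA : A ≠ 0) :
    homogeneousComponent A.totalDegree A ≠ 0 := by
  classical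
  intro h
  by_cases h0 : A.totalDegree = 0
  · rw [h0, homogeneousComponent_zero] at h
    have h1 := totalDegree_eq_zero_iff_eq_C.mp h0
    apply hA
    rw [h1, h]
  · exact lt_irrefl _ (totalDegree_lt_of_hc A _ (Nat.pos_of_ne_zero h0) le_rfl h)

end

end Pool.Agent.H21.SM
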