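import Pool.Agent.H21.SM.Fin
import Pool.Agent.H54.Build

/-!
One finite set of the construction, with the bound for curves with few singular points.
-/

set_option autoImplicit false

open MvPolynomial
open scoped Pointwise

namespace Pool.Agent.H21.SM

open Pool.Agent.H54 (pt zeroSet exists_sphere exists_generic good_of_good finrank_span_lt
  card_le_pow)

/-- One finite set of the construction. -/
theorem exists_set (k D : ℕ) (hk : 1 ≤ k) : ∃ A : Finset (ℝ × ℝ),
    k ^ D ≤ A.card * (D * k ^ 2 + 1) ∧ (A + A).card ≤ (2 * k) ^ D ∧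
    (∀ P : MvPolynomial (Fin 2) ℝ, P ≠ 0 →
      {p : ℝ × ℝ | p ∈ A ∧ p ∈ zeroSet P ∧ ∀ Q, Irreducible Q → Q ∣ P → p ∈ zeroSet Q →
        ((zeroSet Q).Finite ∨ ¬ Bornology.IsBounded (zeroSet Q)) ∨
        (3 ≤ Q.totalDegree ∧ SmoothAtInfinity Q ∧
          8 * tjurina Q < ((Q.totalDegree * (Q.totalDegree - 2) : ℕ) : Cardinal))}.ncard ≤
        2 * P.totalDegree ^ 2) ∧
    (∀ d ≤ A.card, ∀ P : MvPolynomial (Fin 2) ℝ, P ≠ 0 → P.totalDegree ≤ d →
      {p : ℝ × ℝ | p ∈ A ∧ p ∈ zeroSet P}.ncard ≤ k ^ ((d + 1) * (d + 2) / 2)) := by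
  classical
  obtain ⟨B, R, hR, hBk, hBcard⟩ := exists_sphere k D
  obtain ⟨M, hinj, hgen⟩ := exists_generic B B.card
  let π : (Fin D → ℝ) → ℝ × ℝ := fun x => (pt M x 0, pt M x 1)
  have hπ : ∀ x, ![(π x).1, (π x).2] = pt M x := by
    intro x
    funext l
    fin_cases l <;> rfl
  have hπinj : Set.InjOn π (B : Set (Fin D → ℝ)) := by
    intro x hx y hy h
    apply hinj x hx y hy
    rw [← hπ, ← hπ, h]
  have hAcard : (B.image π).card = B.card := Finset.card_image_of_injOn hπinj
  have hncard : ∀ p : ℝ × ℝ → Prop, ∃ X ⊆ B, (∀ x ∈ X, p (π x)) ∧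
      {q : ℝ × ℝ | q ∈ B.image π ∧ p q}.ncard = X.card := by
    intro p
    refine ⟨B.filter fun x => p (π x), Finset.filter_subset _ _,
      fun x hx => (Finset.mem_filter.mp hx).2, ?_⟩
    have h1 : {q : ℝ × ℝ | q ∈ B.image π ∧ p q} =
        ((B.filter fun x => p (π x)).image π : Finset _) := by
      ext q
      simp only [Finset.mem_image, Set.mem_ofPred_eq, Finset.coe_image, Finset.coe_filter,
        Set.mem_image]
      constructor
      · rintro ⟨⟨x, hx, rfl⟩, hp⟩
        exact ⟨x, ⟨hx, hp⟩, rfl⟩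
      · rintro ⟨x, ⟨hx, hp⟩, rfl⟩
        exact ⟨⟨x, hx, rfl⟩, hp⟩
    rw [h1, Set.ncard_coe_finset, Finset.card_image_of_injOn]
    exact hπinj.mono (by
      intro x hx
      exact (Finset.mem_filter.mp hx).1)
  refine ⟨B.image π, ?_, ?_, ?_, ?_⟩
  · rw [hAcard]
    exact hBcard
  · let g : (Fin D → ℕ) → ℝ × ℝ := fun x => π (fun i => (x i : ℝ))
    have hsub : B.image π + B.image π ⊆
        (Fintype.piFinset fun _ : Fin D => Finset.range (2 * k)).image g := by
      intro q hq
      obtain ⟨a, ha, b, hb, rfl⟩ := Finset.mem_add.mp hq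
      obtain ⟨x, hx, rfl⟩ := Finset.mem_image.mp ha
      obtain ⟨y, hy, rfl⟩ := Finset.mem_image.mp hb
      choose u hu1 hu2 using hBk x hx
      choose v hv1 hv2 using hBk y hy
      refine Finset.mem_image.mpr ⟨fun i => u i + v i, ?_, ?_⟩
      · rw [Fintype.mem_piFinset]
        intro i
        rw [Finset.mem_range]
        have := hu1 i
        have := hv1 i
        omega
      · have hadd : ∀ l, pt M (fun i => ((u i + v i : ℕ) : ℝ)) l = pt M x l + pt M y l := by
          intro l
          simp only [pt, Algebra.algebraMap_self, RingHom.id_apply]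
          rw [← Finset.sum_add_distrib]
          refine Finset.sum_congr rfl fun i _ => ?_
          rw [hu2 i, hv2 i]
          push_cast
          ring
        exact Prod.ext (hadd 0) (hadd 1)
    refine (Finset.card_le_card hsub).trans (Finset.card_image_le.trans ?_)
    simp
  · intro P hP
    obtain ⟨X, hXB, hX, hXc⟩ := hncard (fun q => q ∈ zeroSet P ∧
        ∀ Q, Irreducible Q → Q ∣ P → q ∈ zeroSet Q →
        ((zeroSet Q).Finite ∨ ¬ Bornology.IsBounded (zeroSet Q)) ∨
        (3 ≤ Q.totalDegree ∧ SmoothAtInfinity Q ∧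
          8 * tjurina Q < ((Q.totalDegree * (Q.totalDegree - 2) : ℕ) : Cardinal)))
    rw [hXc]
    apply card_le_few_general B M R hR hinj hgen P hP _ hXB
    intro x hx
    obtain ⟨hx1, hx2⟩ := hX x hx
    have hx1' : eval (pt M x) P = 0 := by
      have h := hx1
      unfold zeroSet at h
      rw [Set.mem_ofPred_eq, hπ] at h
      exact h
    refine ⟨hx1', fun Q hQ hQP hQx => ?_⟩
    have h := hx2 Q hQ hQP (by
      unfold zeroSet
      rw [Set.mem_ofPred_eq, hπ]
      exact hQx)
    rcases h with h | h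
    · exact Or.inl (good_of_good Q h)
    · exact Or.inr h
  · intro d hd P hP hPd
    rw [hAcard] at hd
    obtain ⟨X, hXB, hX0, hXc⟩ := hncard (fun q => q ∈ zeroSet P)
    rw [hXc]
    have hX : ∀ x ∈ X, eval (pt M x) P = 0 := by
      intro x hx
      have h := hX0 x hx
      unfold zeroSet at h
      rw [Set.mem_ofPred_eq, hπ] at h
      exact h
    have h1 := finrank_span_lt B B.card M hgen d hd P hP hPd X hXB hX
    have hSc : ((Finset.range k).image (fun a : ℕ => (a : ℝ))).card = k := by
      rw [Finset.card_image_of_injective _ Nat.cast_injective, Finset.card_range]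
    have h2 := card_le_pow X
      ((Finset.range k).image (fun a : ℕ => (a : ℝ))) (by rw [hSc]; exact hk)
      (by
        intro x hx i
        obtain ⟨a, ha, hxa⟩ := hBk x (hXB hx) i
        rw [hxa]
        exact Finset.mem_image_of_mem _ (Finset.mem_range.mpr ha)) _ h1.le
    rw [hSc] at h2
    exact h2

end Pool.Agent.H21.SM
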